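import Pool.Agent.MWGN.StmtsB

/-!
# MWGN, row SPX: the special order under the exchange
-/

set_option autoImplicit false

namespace Pool.Agent.MWGN.H59

open Pool.Agent.Helper14_MV Pool.Agent.Helper2_MV Pool.Agent.MWGN
open Pool.Agent.MWK (pre Gw)

theorem pre2 {p U T : List ℕ} {y : ℕ} (hp : y ∉ p) (hU : y ∈ U) :
    pre (p ++ (U ++ T)) y = p ++ pre U y := by
  rw [MWK.pre_append hp, MWK.pre_append_mem hU]

theorem pre3 {p U V T : List ℕ} {y : ℕ} (hp : y ∉ p) (hU : y ∉ U) (hV : y ∈ V) :
    pre (p ++ (U ++ (V ++ T))) y = p ++ (U ++ pre V y) := by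
  rw [MWK.pre_append hp, MWK.pre_append hU, MWK.pre_append_mem hV]

theorem pre4 {p U V T : List ℕ} {y : ℕ} (hp : y ∉ p) (hU : y ∉ U) (hV : y ∉ V) :
    pre (p ++ (U ++ (V ++ T))) y = p ++ (U ++ (V ++ pre T y)) := by
  rw [MWK.pre_append hp, MWK.pre_append hU, MWK.pre_append hV]

theorem core {p U V R : List ℕ} {x y a : ℕ} (haU : a ∉ U) (haV : a ∉ V) (hyp : y ∉ p)
    (hya : (pre (p ++ (U ++ (V ++ R))) a).count y = 1)
    (hxa : (pre (p ++ (U ++ (V ++ R))) a).count x = 1) :
    U.count y + V.count y ≤ 1 ∧ p.count x + (U.count x + V.count x) ≤ 1 := by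
  have hap : a ∉ p := by
    intro h
    rw [MWK.pre_append_mem h] at hya
    exact hyp (MWK.mem_of_mem_pre (List.count_pos_iff.1 (by omega : 0 < (pre p a).count y)))
  rw [pre4 hap haU haV] at hya hxa
  simp only [List.count_append] at hya hxa
  omega

theorem notin {p X Y F G H w : List ℕ} {a : ℕ}
    (hw : w.count a = p.count a + (X.count a + (Y.count a + (F.count a + (X.count a +
      (G.count a + (Y.count a + H.count a))))))) (h1 : w.count a = 1) : a ∉ X ∧ a ∉ Y := by
  constructor
  · intro h
    have := List.count_pos_iff.2 h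
    omega
  · intro h
    have := List.count_pos_iff.2 h
    omega

/-- the cases in which nothing changes -/
theorem same {p U V R : List ℕ} {x y : ℕ} (h : y ∈ p ∨ (y ∉ U ∧ y ∉ V)) :
    (pre (p ++ (U ++ (V ++ R))) y).count x = (pre (p ++ (V ++ (U ++ R))) y).count x := by
  by_cases hp : y ∈ p
  · rw [MWK.pre_append_mem hp, MWK.pre_append_mem hp]
  · rcases h with h | ⟨hU, hV⟩
    · exact absurd h hp
    · rw [pre4 hp hU hV, pre4 hp hV hU]
      simp only [List.count_append]
      omega

theorem spx : SpxStmt := by
  intro ν m nc p X Y F G H w w' hw hw' _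
  constructor
  · intro hC h1 hn
    unfold nn at h1 ⊢
    have hc : ∀ c, w.count c = p.count c + (X.count c + (Y.count c + (F.count c + (X.count c +
      (G.count c + (Y.count c + H.count c)))))) := by
      intro c
      rw [hw]
      simp only [List.count_append]
    obtain ⟨haX, haY⟩ := notin (hc ν.a) hC.sa
    have hxa := hC.xa
    have hya := hC.ya
    unfold nn at hxa hya
    rw [hw] at h1 hxa hya
    rw [hw']
    by_cases hy : ν.y ∈ p ∨ (ν.y ∉ X ∧ ν.y ∉ Y)
    · rw [← same hy]
      exact h1
    · have hyp : ν.y ∉ p := fun h => hy (Or.inl h)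
      obtain ⟨k1, k2⟩ := core haX haY hyp hya hxa
      by_cases hyX : ν.y ∈ X
      · have h2 := List.count_pos_iff.2 hyX
        have hyY : ν.y ∉ Y := fun h => by
          have := List.count_pos_iff.2 h
          omega
        rw [pre2 hyp hyX, List.count_append] at h1
        rw [pre3 hyp hyY hyX, List.count_append, List.count_append]
        have h3 := MWK.count_pre_le X ν.x ν.y
        omega
      · have hyY : ν.y ∈ Y := by
          by_contra h
          exact hy (Or.inr ⟨hyX, h⟩)
        have hxX : ν.x ∉ X := fun h => hn ⟨h, hyY⟩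
        have h2 : X.count ν.x = 0 := List.count_eq_zero_of_not_mem hxX
        rw [pre3 hyp hyX hyY, List.count_append, List.count_append] at h1
        rw [pre2 hyp hyY, List.count_append]
        omega
  · intro hC h1
    unfold nn at h1 ⊢
    have hc : ∀ c, w'.count c = p.count c + (Y.count c + (X.count c + (F.count c + (X.count c +
      (G.count c + (Y.count c + H.count c)))))) := by
      intro c
      rw [hw']
      simp only [List.count_append]
    have haXY : ν.a ∉ X ∧ ν.a ∉ Y := by
      have h2 := hc ν.a
      have h3 := hC.sa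
      constructor
      · intro h
        have := List.count_pos_iff.2 h
        omega
      · intro h
        have := List.count_pos_iff.2 h
        omega
    obtain ⟨haX, haY⟩ := haXY
    have hxa := hC.xa
    have hya := hC.ya
    have hxl := hC.xl 0 (by omega)
    have hyl := hC.yl 0 (by omega)
    unfold nn at hxa hya hxl hyl
    rw [hw'] at h1 hxa hya
    rw [hw]
    by_cases hy : ν.y ∈ p ∨ (ν.y ∉ Y ∧ ν.y ∉ X)
    · rw [← same hy]
      exact h1
    · have hyp : ν.y ∉ p := fun h => hy (Or.inl h)
      obtain ⟨k1, k2⟩ := core haY haX hyp hya hxa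
      by_cases hyY : ν.y ∈ Y
      · have h2 := List.count_pos_iff.2 hyY
        have hyX : ν.y ∉ X := fun h => by
          have := List.count_pos_iff.2 h
          omega
        rw [pre2 hyp hyY, List.count_append] at h1
        rw [pre3 hyp hyX hyY, List.count_append, List.count_append]
        have h3 := MWK.count_pre_le Y ν.x ν.y
        omega
      · have hyX : ν.y ∈ X := by
          by_contra h
          exact hy (Or.inr ⟨hyY, h⟩)
        have h2 := List.count_pos_iff.2 hyX
        have hxY : ν.x ∉ Y := by
          intro hxY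
          have h3 := List.count_pos_iff.2 hxY
          have e : w' = (p ++ (Y ++ (X ++ (F ++ (X ++ G))))) ++ (Y ++ H) := by
            rw [hw']
            simp only [List.append_assoc]
          have hμ : ν.L 0 ∉ p ++ (Y ++ (X ++ (F ++ (X ++ G)))) := by
            intro h
            have h4 := hc ν.x
            rw [← hxl, e, MWK.pre_append_mem h] at h4
            have h5 := MWK.count_pre_le (p ++ (Y ++ (X ++ (F ++ (X ++ G))))) ν.x (ν.L 0)
            simp only [List.count_append] at h4 h5
            omega
          rw [e, MWK.pre_append hμ] at hyl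
          simp only [List.count_append] at hyl
          omega
        have h3 : Y.count ν.x = 0 := List.count_eq_zero_of_not_mem hxY
        rw [pre3 hyp hyY hyX, List.count_append, List.count_append] at h1
        rw [pre2 hyp hyX, List.count_append]
        omega

end Pool.Agent.MWGN.H59
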