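import Pool.Agent.MWGN.StmtsC

/-!
# MWGN, row SAF: the word of the hull pentagon satisfies `Kx`, `Ky`
-/

set_option autoImplicit false

namespace Pool.Agent.MWGN.H59

open Pool.Agent.Helper14_MV Pool.Agent.Helper2_MV Pool.Agent.MWGN
open Pool.Agent.MWK (pre Gw)

/-- the middle part -/
def md (u v : Bool) (k : ℕ) : List ℕ :=
  (List.range k).flatMap (fun i => NF.L (i + 1) :: gp u v i)

theorem md_succ (u v : Bool) (k : ℕ) :
    md u v (k + 1) = md u v k ++ (NF.L (k + 1) :: gp u v k) := by
  simp [md, List.range_succ]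

theorem gp_mem {u v : Bool} {i c : ℕ} (h : c ∈ gp u v i) : c = 8 + 3 * i ∨ c ≤ 1 := by
  unfold gp at h
  simp only [List.mem_append, List.mem_cons, List.not_mem_nil, or_false] at h
  rcases h with h | h
  · left
    have h1 : c = NF.C (i + 1) := by tauto
    rw [h1]
    show 5 + 3 * (i + 1) = 8 + 3 * i
    omega
  · right
    rcases h with h | h
    · cases u
      · simp at h
      · simp at h
        omega
    · cases v
      · simp at h
      · simp at h
        omega

theorem md_mem {u v : Bool} {k c : ℕ} (h : c ∈ md u v k) : c ≤ 1 ∨ (7 ≤ c ∧ c < 7 + 3 * k) := by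
  unfold md at h
  rw [List.mem_flatMap] at h
  obtain ⟨i, hi, h⟩ := h
  rw [List.mem_range] at hi
  rcases List.mem_cons.1 h with h | h
  · right
    rw [h]
    show 7 ≤ 4 + 3 * (i + 1) ∧ 4 + 3 * (i + 1) < 7 + 3 * k
    omega
  · rcases gp_mem h with h | h
    · right
      omega
    · left
      exact h

theorem md_split {u v : Bool} {i k : ℕ} (h : i < k) :
    ∃ R, md u v k = md u v i ++ NF.L (i + 1) :: R := by
  induction k with
  | zero => omega
  | succ k ih =>
    rw [md_succ]
    rcases Nat.lt_or_ge i k with h1 | h1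
    · obtain ⟨R, hR⟩ := ih h1
      refine ⟨R ++ (NF.L (k + 1) :: gp u v k), ?_⟩
      rw [hR]
      simp
    · have e : i = k := by omega
      subst e
      exact ⟨_, rfl⟩

theorem md_count (k c : ℕ) : (md false false k).count c =
    (if c % 3 = 1 ∧ 7 ≤ c ∧ c < 7 + 3 * k then 1 else 0) +
      (if c % 3 = 2 ∧ 8 ≤ c ∧ c < 8 + 3 * k then 2 else 0) := by
  induction k with
  | zero =>
    have h1 : ¬ (c % 3 = 1 ∧ 7 ≤ c ∧ c < 7 + 3 * 0) := by omega
    have h2 : ¬ (c % 3 = 2 ∧ 8 ≤ c ∧ c < 8 + 3 * 0) := by omega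
    rw [if_neg h1, if_neg h2]
    rfl
  | succ k ih =>
    rw [md_succ, List.count_append, ih]
    have h : (NF.L (k + 1) :: gp false false k) = [4 + 3 * (k + 1), 5 + 3 * (k + 1),
      5 + 3 * (k + 1)] := rfl
    rw [h]
    simp only [List.count_cons, List.count_nil, beq_iff_eq]
    split_ifs <;> omega

theorem md_count0 (k : ℕ) : (md false true k).count 0 = 2 * k := by
  induction k with
  | zero => rfl
  | succ k ih =>
    rw [md_succ, List.count_append, ih]
    have h : (NF.L (k + 1) :: gp false true k) = [4 + 3 * (k + 1), 5 + 3 * (k + 1),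
      5 + 3 * (k + 1), 0, 0] := rfl
    rw [h]
    simp
    omega

/-- the part in front of `2` -/
def hh (r : ℕ) (u v : Bool) : List ℕ :=
  [0, 0, 4, 1, 1] ++ (md u v r ++ [7 + 3 * r, 0, 0, 10 + 3 * r, 1, 1])

/-- the tails -/
def tt (l : List ℕ) : List ℕ := l.flatMap (fun i => [NF.S i, NF.L i])

theorem wf_eq (τ : List ℕ) (r : ℕ) (u v : Bool) :
    wf τ r u v = hh r u v ++ 2 :: tt (tw τ r) := by
  have h1 : NF.L (r + 1) = 7 + 3 * r := by
    show 4 + 3 * (r + 1) = 7 + 3 * r
    omega
  have h2 : NF.L (r + 2) = 10 + 3 * r := by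
    show 4 + 3 * (r + 2) = 10 + 3 * r
    omega
  have h3 : NF.L 0 = 4 := rfl
  unfold wf hh tt md
  rw [h1, h2, h3]
  simp

theorem pL0 (τ : List ℕ) (r : ℕ) (u v : Bool) : pre (wf τ r u v) (NF.L 0) = [0, 0] := by
  have h : wf τ r u v = [0, 0] ++ NF.L 0 :: (1 :: 1 :: ((List.range r).flatMap
    (fun i => NF.L (i + 1) :: gp u v i) ++ NF.L (r + 1) :: 0 :: 0 :: NF.L (r + 2) :: 1 :: 1 :: 2 ::
      (tw τ r).flatMap (fun i => [NF.S i, NF.L i]))) := rfl
  rw [h]
  exact MWK.pre_split (by decide) _

theorem pLi (τ : List ℕ) (r : ℕ) (u v : Bool) (i : ℕ) (hi : i ≤ r) :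
    pre (wf τ r u v) (NF.L (i + 1)) = [0, 0, 4, 1, 1] ++ md u v i := by
  have hn : NF.L (i + 1) ∉ [0, 0, 4, 1, 1] ++ md u v i := by
    have e : NF.L (i + 1) = 7 + 3 * i := by
      show 4 + 3 * (i + 1) = 7 + 3 * i
      omega
    rw [e, List.mem_append]
    rintro (h | h)
    · simp only [List.mem_cons, List.not_mem_nil, or_false] at h
      omega
    · have := md_mem h
      omega
  have h : ∃ R, wf τ r u v = ([0, 0, 4, 1, 1] ++ md u v i) ++ NF.L (i + 1) :: R := by
    have e0 : wf τ r u v = [0, 0, 4, 1, 1] ++ (md u v r ++ NF.L (r + 1) :: (0 :: 0 ::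
      NF.L (r + 2) :: 1 :: 1 :: 2 :: (tw τ r).flatMap (fun i => [NF.S i, NF.L i]))) := rfl
    rcases Nat.lt_or_ge i r with h1 | h1
    · obtain ⟨R, hR⟩ := md_split (u := u) (v := v) h1
      exact ⟨R ++ NF.L (r + 1) :: (0 :: 0 ::
          NF.L (r + 2) :: 1 :: 1 :: 2 :: (tw τ r).flatMap (fun i => [NF.S i, NF.L i])), by
        rw [e0, hR]
        simp⟩
    · have e : i = r := by omega
      subst e
      exact ⟨_, by rw [e0, List.append_assoc]⟩
  obtain ⟨R, hR⟩ := h
  rw [hR]
  exact MWK.pre_split hn _

theorem pLr (τ : List ℕ) (r : ℕ) (u v : Bool) :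
    pre (wf τ r u v) (NF.L (r + 2)) = [0, 0, 4, 1, 1] ++ (md u v r ++ [7 + 3 * r, 0, 0]) := by
  have hn : 10 + 3 * r ∉ [0, 0, 4, 1, 1] ++ (md u v r ++ [7 + 3 * r, 0, 0]) := by
    rw [List.mem_append, List.mem_append]
    rintro (h | h | h)
    · simp only [List.mem_cons, List.not_mem_nil, or_false] at h
      omega
    · have := md_mem h
      omega
    · simp only [List.mem_cons, List.not_mem_nil, or_false] at h
      omega
  have h2 : NF.L (r + 2) = 10 + 3 * r := by
    show 4 + 3 * (r + 2) = 10 + 3 * r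
    omega
  have e0 : wf τ r u v = ([0, 0, 4, 1, 1] ++ (md u v r ++ [7 + 3 * r, 0, 0])) ++
      (10 + 3 * r) :: ([1, 1] ++ 2 :: tt (tw τ r)) := by
    rw [wf_eq]
    unfold hh
    simp
  rw [h2, e0]
  exact MWK.pre_split hn _

theorem two_notin (r : ℕ) (u v : Bool) : 2 ∉ hh r u v := by
  unfold hh
  rw [List.mem_append, List.mem_append]
  rintro (h | h | h)
  · revert h
    decide
  · have := md_mem h
    omega
  · simp only [List.mem_cons, List.not_mem_nil, or_false] at h
    omega

theorem p2 (τ : List ℕ) (r : ℕ) (u v : Bool) : pre (wf τ r u v) 2 = hh r u v := by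
  rw [wf_eq]
  exact MWK.pre_split (two_notin r u v) _

theorem tt_S (l : List ℕ) (j : ℕ) : (tt l).count (3 + 3 * j) = l.count j := by
  unfold tt
  induction l with
  | nil => rfl
  | cons a l ih =>
    rw [List.flatMap_cons, List.count_append, ih]
    have h : ([NF.S a, NF.L a] : List ℕ) = [3 + 3 * a, 4 + 3 * a] := rfl
    rw [h]
    simp only [List.count_cons, List.count_nil, beq_iff_eq]
    by_cases e : a = j
    · subst e
      simp
      omega
    · have h1 : ¬ (3 + 3 * a = 3 + 3 * j) := by omega
      have h2 : ¬ (4 + 3 * a = 3 + 3 * j) := by omega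
      rw [if_neg h1, if_neg h2, if_neg e]
      omega

theorem tt_L (l : List ℕ) (j : ℕ) : (tt l).count (4 + 3 * j) = l.count j := by
  unfold tt
  induction l with
  | nil => rfl
  | cons a l ih =>
    rw [List.flatMap_cons, List.count_append, ih]
    have h : ([NF.S a, NF.L a] : List ℕ) = [3 + 3 * a, 4 + 3 * a] := rfl
    rw [h]
    simp only [List.count_cons, List.count_nil, beq_iff_eq]
    by_cases e : a = j
    · subst e
      simp
      omega
    · have h1 : ¬ (3 + 3 * a = 4 + 3 * j) := by omega
      have h2 : ¬ (4 + 3 * a = 4 + 3 * j) := by omega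
      rw [if_neg h1, if_neg h2, if_neg e]
      omega

theorem tt_0 (l : List ℕ) (c : ℕ) (hc : c < 3 ∨ c % 3 = 2) : (tt l).count c = 0 := by
  apply List.count_eq_zero_of_not_mem
  unfold tt
  rw [List.mem_flatMap]
  rintro ⟨i, _, h⟩
  have h' : c = 3 + 3 * i ∨ c = 4 + 3 * i := by
    simp only [List.mem_cons, List.not_mem_nil, or_false] at h
    exact h
  omega

theorem cA (c : ℕ) : ([0, 0, 4, 1, 1] : List ℕ).count c =
    (if c = 0 then 2 else 0) + (if c = 1 then 2 else 0) + (if c = 4 then 1 else 0) := by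
  simp only [List.count_cons, List.count_nil, beq_iff_eq]
  split_ifs <;> omega

theorem cB (r c : ℕ) : ([7 + 3 * r, 0, 0, 10 + 3 * r, 1, 1] : List ℕ).count c =
    (if c = 0 then 2 else 0) + (if c = 1 then 2 else 0) + (if c = 7 + 3 * r then 1 else 0) +
      (if c = 10 + 3 * r then 1 else 0) := by
  simp only [List.count_cons, List.count_nil, beq_iff_eq]
  split_ifs <;> omega

theorem cB' (r c : ℕ) : ([7 + 3 * r, 0, 0] : List ℕ).count c =
    (if c = 0 then 2 else 0) + (if c = 7 + 3 * r then 1 else 0) := by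
  simp only [List.count_cons, List.count_nil, beq_iff_eq]
  split_ifs <;> omega

theorem cH (r c : ℕ) : (hh r false false).count c =
    ((if c = 0 then 2 else 0) + (if c = 1 then 2 else 0) + (if c = 4 then 1 else 0)) +
    (((if c % 3 = 1 ∧ 7 ≤ c ∧ c < 7 + 3 * r then 1 else 0) +
      (if c % 3 = 2 ∧ 8 ≤ c ∧ c < 8 + 3 * r then 2 else 0)) +
    ((if c = 0 then 2 else 0) + (if c = 1 then 2 else 0) + (if c = 7 + 3 * r then 1 else 0) +
      (if c = 10 + 3 * r then 1 else 0))) := by
  unfold hh
  rw [List.count_append, List.count_append, cA, md_count, cB]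

theorem md0 (k : ℕ) : (md false false k).count 0 = 0 := by
  rw [md_count]
  simp

theorem md1 (k : ℕ) : (md false false k).count 1 = 0 := by
  rw [md_count]
  simp

theorem h0 (k : ℕ) : (hh k false false).count 0 = 4 := by
  rw [cH]
  simp
  split_ifs <;> omega

theorem h1 (k : ℕ) : (hh k false false).count 1 = 4 := by
  rw [cH]
  simp
  split_ifs <;> omega

theorem h2 (k : ℕ) : (hh k false false).count 2 = 0 := by
  rw [cH]
  simp
  omega

theorem a0 : ([0, 0, 4, 1, 1] : List ℕ).count 0 = 2 := by decide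

theorem a1 : ([0, 0, 4, 1, 1] : List ℕ).count 1 = 2 := by decide

theorem b0 (r : ℕ) : ([7 + 3 * r, 0, 0] : List ℕ).count 0 = 2 := by
  rw [cB']
  simp
  omega

theorem b1 (r : ℕ) : ([7 + 3 * r, 0, 0] : List ℕ).count 1 = 0 := by
  rw [cB']
  simp
  omega

theorem cW (τ : List ℕ) (r c : ℕ) : (wf τ r false false).count c =
    (hh r false false).count c + ((if c = 2 then 1 else 0) + (tt (tw τ r)).count c) := by
  rw [wf_eq, List.count_append, List.count_cons]
  simp only [beq_iff_eq]
  split_ifs <;> omega

theorem saf (hPRF : PrfStmt) (hTWT : TwtStmt) : SafStmt := by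
  intro τ r hr hτ
  obtain ⟨⟨hnd, hmem⟩, _⟩ := hTWT τ r hr hτ
  -- numbers of letters
  have htw : ∀ i ≤ r + 2, (tw τ r).count i = 1 := fun i hi =>
    List.count_eq_one_of_mem hnd ((hmem i).2 hi)
  have hW := cW τ r
  have hH := cH r
  have w0 : (wf τ r false false).count 0 = 4 := by
    rw [hW, h0, tt_0 _ 0 (by omega)]
    simp
  have w1 : (wf τ r false false).count 1 = 4 := by
    rw [hW, h1, tt_0 _ 1 (by omega)]
    simp
  have w2 : (wf τ r false false).count 2 = 1 := by
    rw [hW, h2, tt_0 _ 2 (by omega)]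
    simp
  have hL : ∀ i ≤ r + 2, (hh r false false).count (NF.L i) = 1 := by
    intro i hi
    show (hh r false false).count (4 + 3 * i) = 1
    rw [hH]
    split_ifs <;> omega
  have wL : ∀ i ≤ r + 2, (wf τ r false false).count (NF.L i) = 2 := by
    intro i hi
    rw [hW, hL i hi]
    show 1 + ((if 4 + 3 * i = 2 then 1 else 0) + (tt (tw τ r)).count (4 + 3 * i)) = 2
    rw [tt_L, htw i hi]
    split_ifs <;> omega
  have hC : ∀ i, 1 ≤ i → i ≤ r → (hh r false false).count (NF.C i) = 2 := by
    intro i hi hir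
    show (hh r false false).count (5 + 3 * i) = 2
    rw [hH]
    split_ifs <;> omega
  have wC : ∀ i, 1 ≤ i → i ≤ r → (wf τ r false false).count (NF.C i) = 2 := by
    intro i hi hir
    rw [hW, hC i hi hir]
    show 2 + ((if 5 + 3 * i = 2 then 1 else 0) + (tt (tw τ r)).count (5 + 3 * i)) = 2
    rw [tt_0 _ _ (by omega)]
    split_ifs <;> omega
  have hS : ∀ i, (hh r false false).count (NF.S i) = 0 := by
    intro i
    show (hh r false false).count (3 + 3 * i) = 0
    rw [hH]
    split_ifs <;> omega
  have wS : ∀ i ≤ r + 2, (wf τ r false false).count (NF.S i) = 1 := by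
    intro i hi
    rw [hW, hS i]
    show 0 + ((if 3 + 3 * i = 2 then 1 else 0) + (tt (tw τ r)).count (3 + 3 * i)) = 1
    rw [tt_S, htw i hi]
    split_ifs <;> omega
  have hcC : ∀ i, 1 ≤ i → i ≤ r → ∀ j, j ≤ r → (([0, 0, 4, 1, 1] : List ℕ) ++
      md false false j).count (NF.C i) = if i ≤ j then 2 else 0 := by
    intro i hi hir j hj
    show (([0, 0, 4, 1, 1] : List ℕ) ++ md false false j).count (5 + 3 * i) = _
    rw [List.count_append, cA, md_count]
    split_ifs <;> omega
  have hpS : ∀ j ≤ r + 2, pre (wf τ r false false) (NF.S j) =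
      hh r false false ++ 2 :: tt (pre (tw τ r) j) := by
    intro j hj
    have h1 : NF.S j ∉ hh r false false := by
      rw [← List.count_eq_zero]
      exact hS j
    have h2 : NF.S j ∉ [2] := by
      have h3 : NF.S j = 3 + 3 * j := rfl
      rw [h3, List.mem_singleton]
      omega
    have h4 := hPRF NF.S (fun i => [NF.L i]) (tw τ r) j ((hmem j).2 hj) (by
      intro i _ hij
      show 3 + 3 * i ≠ 3 + 3 * j
      omega) (by
      intro i _ _
      have h5 : NF.S j = 3 + 3 * j := rfl
      have h6 : NF.L i = 4 + 3 * i := rfl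
      rw [h5, h6, List.mem_singleton]
      omega) []
    rw [List.append_nil] at h4
    rw [wf_eq, MWK.pre_append h1]
    have h7 : pre (2 :: tt (tw τ r)) (NF.S j) = 2 :: pre (tt (tw τ r)) (NF.S j) :=
      MWK.pre_append h2 _
    rw [h7]
    unfold tt
    rw [h4]
  have hcS : ∀ i j, j ≤ r + 2 → (pre (wf τ r false false) (NF.S j)).count (NF.S i) =
      (pre (tw τ r) j).count i := by
    intro i j hj
    rw [hpS j hj, List.count_append, hS i, List.count_cons]
    show 0 + ((tt (pre (tw τ r) j)).count (3 + 3 * i) + if (2 == 3 + 3 * i) = true then 1 else 0) = _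
    rw [tt_S]
    simp only [beq_iff_eq]
    split_ifs <;> omega
  have hcL : ∀ i j, i ≤ r + 2 → j ≤ r + 2 → (pre (wf τ r false false) (NF.S j)).count (NF.L i) =
      1 + (pre (tw τ r) j).count i := by
    intro i j hi hj
    rw [hpS j hj, List.count_append, hL i hi, List.count_cons]
    show 1 + ((tt (pre (tw τ r) j)).count (4 + 3 * i) + if (2 == 4 + 3 * i) = true then 1 else 0) = _
    rw [tt_L]
    simp only [beq_iff_eq]
    split_ifs <;> omega
  have hKF : KF τ r (wf τ r false false) := by
    refine ⟨w2, by omega, by omega, ?_, ?_, ?_, ?_, ?_, ?_, ?_, ?_, ?_, ?_, ?_, ?_, ?_, ?_, ?_⟩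
    · unfold nn
      rw [p2, w0, h0]
    · unfold nn
      rw [p2, w1, h1]
    · intro i hi
      rw [wL i hi]
    · intro i hi
      unfold nn
      rw [p2, hL i hi]
    · intro i hi hir
      rw [wC i hi hir]
    · intro i hi hir
      unfold nn
      rw [p2, hC i hi hir, wC i hi hir]
    · unfold nn
      rw [pL0]
      decide
    · unfold nn
      rw [pLi τ r false false r le_rfl, w0, List.count_append, a0, md0]
      omega
    · unfold nn
      rw [pLr, w0, List.count_append, List.count_append, a0, md0, b0]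
    · unfold nn
      rw [pL0]
      decide
    · unfold nn
      rw [pLi τ r false false 0 (by omega), List.count_append, a1, md1]
      omega
    · unfold nn
      rw [pLr, w1, List.count_append, List.count_append, a1, md1, b1]
      omega
    · intro i hi hir j hj
      unfold nn
      rcases j with _ | j
      · rw [pL0]
        show ([0, 0] : List ℕ).count (5 + 3 * i) = 0
        simp only [List.count_cons, List.count_nil, beq_iff_eq]
        split_ifs <;> omega
      · rw [pLi τ r false false j (by omega), hcC i hi hir j (by omega)]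
        split_ifs <;> omega
    · intro i hi hir j hij hj
      unfold nn
      rw [wC i hi hir]
      rcases j with _ | j
      · omega
      · rcases Nat.lt_or_ge r j with h1 | h1
        · have e : j = r + 1 := by omega
          subst e
          rw [pLr, ← List.append_assoc, List.count_append, hcC i hi hir r le_rfl, cB']
          show (if i ≤ r then 2 else 0) + ((if 5 + 3 * i = 0 then 2 else 0) +
            if 5 + 3 * i = 7 + 3 * r then 1 else 0) = 2
          split_ifs <;> omega
        · rw [pLi τ r false false j h1, hcC i hi hir j h1]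
          split_ifs <;> omega
    · refine ⟨wS, ?_, ?_, ?_, ?_⟩
      · intro i _
        unfold nn
        show (pre (wf τ r false false) 2).count (NF.S i) = 0
        rw [p2, hS i]
      · intro i j hi hj hij
        unfold nn
        rw [hcS j i hi]
        exact List.count_eq_zero_of_not_mem (MWK.pre_asymm hij)
      · intro i hi
        unfold nn
        rw [hcL i i hi hi, List.count_eq_zero_of_not_mem (MWK.not_mem_pre _ i)]
      · intro i j hi hj hij
        unfold nn
        rw [hcL i j hi hj, wL i hi]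
        have h1 := MWK.count_pre_le (tw τ r) i j
        rw [htw i hi] at h1
        have h2 := List.count_pos_iff.2 hij
        omega
  refine ⟨⟨hKF, ?_⟩, ⟨hKF, ?_⟩, ?_⟩
  · unfold nn
    rw [pL0, pLi τ r false false r le_rfl, List.count_append, cA, md_count]
    simp
  · unfold nn
    rw [pLr, pLi τ r false false 0 (by omega), List.count_append, List.count_append,
      List.count_append, a1, md1, md1, b1]
  · rintro ⟨_, h⟩
    unfold nn at h
    rw [pL0, pLi τ r false true r le_rfl, List.count_append, cA, md_count0] at h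
    simp at h
    omega

end Pool.Agent.MWGN.H59
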